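import Pool.Agent.Run7.h336.FW.Stm

/-! # The uniform bound -/

set_option autoImplicit false
set_option linter.unusedSectionVars false
set_option maxHeartbeats 2000000

open Complex Filter Topology Set MeasureTheory Metric
open scoped ComplexConjugate

namespace Pool.Agent.Y23.G.FW

variable [L : LFun]

/-- the function `Ex` on `[0, 3]` -/
lemma Ex_up3 {A σ : ℝ} (hA : 0 ≤ A) (hσ : 0 ≤ σ) (hσ3 : σ ≤ 3) :
    Ex (L := L) A σ ≤ A + A * Real.log 5 + L.m / 2 * (3 * (Real.log 3 + |kp (L := L)|)) := by
  unfold Ex
  have hm := m_one (L := L)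
  have h1 : Real.log (2 + σ) ≤ Real.log 5 := Real.log_le_log (by linarith) (by linarith)
  have h2 : σ * (Real.log σ - kp (L := L)) ≤ 3 * (Real.log 3 + |kp (L := L)|) := by
    have h3 : Real.log σ - kp (L := L) ≤ Real.log 3 + |kp (L := L)| := by
      have h4 : Real.log σ ≤ Real.log 3 := by
        rcases hσ.eq_or_lt with h | h
        · rw [← h, Real.log_zero]
          exact Real.log_nonneg (by norm_num)
        · exact Real.log_le_log h hσ3
      have h5 := neg_le_abs (kp (L := L))
      linarith
    have h6 : 0 ≤ Real.log 3 + |kp (L := L)| := add_nonneg (Real.log_nonneg (by norm_num)) (abs_nonneg _)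
    calc σ * (Real.log σ - kp (L := L)) ≤ σ * (Real.log 3 + |kp (L := L)|) := mul_le_mul_of_nonneg_left h3 hσ
      _ ≤ _ := mul_le_mul_of_nonneg_right hσ3 h6
  have h3 : A * Real.log (2 + σ) ≤ A * Real.log 5 := mul_le_mul_of_nonneg_left h1 hA
  have h4 : (L.m : ℝ) / 2 * (σ * (Real.log σ - kp)) ≤ L.m / 2 * (3 * (Real.log 3 + |kp (L := L)|)) :=
    mul_le_mul_of_nonneg_left h2 (by linarith)
  linarith

theorem t_BDD : S_BDD (L := L) := by
  intro A hA hX
  set Q : ℝ := Real.exp (A + A * Real.log 5 + L.m / 2 * (3 * (Real.log 3 + |kp (L := L)|))) with hQ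
  have hQ0 : 0 < Q := Real.exp_pos _
  set q : ℝ := Real.exp (A - L.m / 2 * (1 + 3 * |kp (L := L)|)) with hq
  have hq0 : 0 < q := Real.exp_pos _
  refine ⟨max 1 (33 * Q / q), by positivity, fun w0 H hw0 hH hHX w => ?_⟩
  have him0 : 0 < 1 + w.im ^ 2 := by positivity
  rcases le_total 2 ‖w - w0‖ with h | h
  · refine (hHX w h).trans ((hX w).trans ?_)
    refine div_le_div_of_nonneg_right ?_ him0.le
    exact le_mul_of_one_le_left (Real.exp_pos _).le (le_max_left _ _)
  · have hwre : |w.re| ≤ 3 := by
      have h1 := (Complex.abs_re_le_norm (w - w0)).trans h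
      rw [Complex.sub_re] at h1
      have h2 : w.re = (w.re - w0.re) + w0.re := by ring
      rw [h2]
      exact (abs_add_le _ _).trans (by linarith)
    have key : ‖H w‖ ≤ 33 * Q / (1 + w.im ^ 2) := by
      refine Complex.norm_le_of_forall_mem_frontier_norm_le (U := ball w0 2) isBounded_ball hH.diffContOnCl ?_ ?_
      · intro z hz
        rw [frontier_ball w0 (by norm_num : (2 : ℝ) ≠ 0), mem_sphere, dist_eq_norm] at hz
        refine (hHX z hz.ge).trans ((hX z).trans ?_)
        have hzre : |z.re| ≤ 3 := by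
          have h1 := (Complex.abs_re_le_norm (z - w0)).trans hz.le
          rw [Complex.sub_re] at h1
          have h2 : z.re = (z.re - w0.re) + w0.re := by ring
          rw [h2]
          exact (abs_add_le _ _).trans (by linarith)
        have h3 : Real.exp (Ex A |z.re|) ≤ Q := Real.exp_le_exp.2 (Ex_up3 hA (abs_nonneg _) hzre)
        have h4 : 1 + w.im ^ 2 ≤ 33 * (1 + z.im ^ 2) := by
          have h5 : |w.im - z.im| ≤ 4 := by
            have h6 := Complex.abs_im_le_norm (w - z)
            rw [Complex.sub_im] at h6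
            have h7 : ‖w - z‖ ≤ ‖w - w0‖ + ‖z - w0‖ := by
              have e : w - z = (w - w0) - (z - w0) := by ring
              rw [e]
              exact norm_sub_le _ _
            linarith
          rw [abs_le] at h5
          nlinarith [sq_nonneg (w.im - 2 * z.im), sq_nonneg (w.im - z.im)]
        rw [div_le_div_iff₀ (by positivity) him0]
        calc Real.exp (Ex A |z.re|) * (1 + w.im ^ 2) ≤ Q * (33 * (1 + z.im ^ 2)) :=
              mul_le_mul h3 h4 him0.le hQ0.le
          _ = _ := by ring
      · rw [closure_ball w0 (by norm_num : (2 : ℝ) ≠ 0), mem_closedBall, dist_eq_norm]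
        exact h
    refine key.trans ?_
    refine div_le_div_of_nonneg_right ?_ him0.le
    have h1 := Ex_low (L := L) hA (abs_nonneg w.re) hwre
    have h2 : q ≤ Real.exp (Ex A |w.re|) := Real.exp_le_exp.2 h1
    calc 33 * Q = 33 * Q / q * q := by field_simp
      _ ≤ max 1 (33 * Q / q) * Real.exp (Ex A |w.re|) := mul_le_mul (le_max_right _ _) h2 hq0.le (by positivity)

end Pool.Agent.Y23.G.FW
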