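import Pool.Agent.Run7.h336.FW.FIN2
import Pool.Agent.Run7.h336.FW.BDD
import Pool.Agent.Run7.h833.FW.OFC
import Pool.Agent.Run7.h833.FW.CLV2
import Pool.Agent.Run7.h517.FW.CLU2

/-! # The finite form of Weil's criterion for every L-function of the class -/

set_option autoImplicit false

namespace Pool.Agent.Y23.G.FW

theorem fin2 [L : LFun] : S_FIN2 (L := L) := t_FIN2 t_CLU2 t_CLV2 t_OFC t_BDD t_CUT

end Pool.Agent.Y23.G.FW
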