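import Pool.Agent.Run7.h336.FW.Stm

/-! # The uniform cut -/

set_option autoImplicit false
set_option linter.unusedSectionVars false
set_option maxHeartbeats 2000000

open Complex Filter Topology Set MeasureTheory Metric
open scoped ComplexConjugate Convolution

namespace Pool.Agent.Y23.G.FW

variable [L : LFun]

/-- cutting off the inverse transform -/
theorem t_CUT : S_CUT := by
  intro A hA
  set R : ℝ := 1 with hR1
  have hR : 0 ≤ R := zero_le_one
  obtain ⟨C0, hC0, hd⟩ := dbl (L := L) (B := 4 * A + R) (by positivity)
  have hpi := Real.pi_pos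
  refine ⟨4 * A + R + 1, C0 * Real.pi, by positivity, by positivity, fun K H hK hH hb b hb0 => ?_⟩
  obtain ⟨φ, hφc, hφd, hφi, hφt⟩ := inv_tr hA hK hH hb
  set τ := Real.exp ((4 * A + R + 1) * (1 + b) - cc * Real.exp (2 * b / L.m)) with hτ
  set f : ℝ → ℂ := (Icc (-b) b).indicator φ with hf
  obtain ⟨M, hM⟩ := (isCompact_Icc (a := -b) (b := b)).exists_bound_of_continuousOn hφc.continuousOn
  have hfF : Fa b f := by
    refine Fa_bdd (hφc.aestronglyMeasurable.indicator measurableSet_Icc) (C := |M|) (fun x => ?_) (fun x hx => ?_)
    · simp only [hf]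
      by_cases h : x ∈ Icc (-b) b
      · rw [indicator_of_mem h]
        exact (hM x h).trans (le_abs_self M)
      · rw [indicator_of_notMem h, norm_zero]
        exact abs_nonneg _
    · simp only [hf]
      rw [indicator_of_notMem]
      rw [mem_Icc, ← abs_le, not_le]
      exact hx
  refine ⟨f, hfF, fun w hw => ?_⟩
  have h1 : TT f w - H w = ∫ x : ℝ, (f x - φ x) * cexp (w * x) := by
    rw [← hφt w]
    unfold TT
    rw [← integral_sub (hfF.integrable_mul (by fun_prop)) (hφi w)]
    refine integral_congr_ae (Eventually.of_forall fun x => ?_)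
    simp only
    ring
  rw [h1]
  calc ‖∫ x : ℝ, (f x - φ x) * cexp (w * x)‖ ≤ ∫ x : ℝ, K * C0 * τ * (1 + x ^ 2)⁻¹ := by
        refine norm_integral_le_of_norm_le (integrable_inv_one_add_sq.const_mul _) (Eventually.of_forall fun x => ?_)
        have hx2 : 0 < 1 + x ^ 2 := by positivity
        by_cases h : x ∈ Icc (-b) b
        · simp only [hf]
          rw [indicator_of_mem h, sub_self, zero_mul, norm_zero]
          positivity
        · simp only [hf]
          rw [indicator_of_notMem h, zero_sub, norm_mul, norm_neg, Complex.norm_exp]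
          rw [mem_Icc, ← abs_le, not_le] at h
          have h3 : (w * (x : ℂ)).re ≤ R * (1 + |x|) := by
            rw [Complex.re_mul_ofReal]
            calc w.re * x ≤ |w.re * x| := le_abs_self _
              _ = |w.re| * |x| := abs_mul _ _
              _ ≤ R * (1 + |x|) := mul_le_mul hw (by linarith) (abs_nonneg _) hR
          have h4 := hd b |x| hb0 h.le
          rw [sq_abs] at h4
          rw [← hτ] at h4
          rw [← div_eq_mul_inv, le_div_iff₀ hx2]
          calc ‖φ x‖ * Real.exp (w * (x : ℂ)).re * (1 + x ^ 2) ≤
              (K * Real.exp (4 * A * (1 + |x|) - cc * Real.exp (2 * |x| / L.m)) * Real.exp (R * (1 + |x|))) * (1 + x ^ 2) := by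
                gcongr
                exact hφd x
            _ = K * (Real.exp ((4 * A + R) * (1 + |x|) - cc * Real.exp (2 * |x| / L.m)) * (1 + x ^ 2)) := by
                rw [mul_assoc K, ← Real.exp_add]
                have : 4 * A * (1 + |x|) - cc * Real.exp (2 * |x| / L.m) + R * (1 + |x|) =
                  (4 * A + R) * (1 + |x|) - cc * Real.exp (2 * |x| / L.m) := by ring
                rw [this]; ring
            _ ≤ K * (C0 * τ) := mul_le_mul_of_nonneg_left h4 hK.le
            _ = _ := by ring
    _ = _ := by rw [integral_const_mul, integral_univ_inv_one_add_sq]; ring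


end Pool.Agent.Y23.G.FW
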