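import Pool.Agent.Run7.h336.FW.Stm

/-! # The finite form of Weil's criterion: the pieces of the sharper form (height `c X` instead of `c X / a`) -/

set_option autoImplicit false

open Complex Filter Topology Set MeasureTheory Metric
open scoped ComplexConjugate

namespace Pool.Agent.Y23.G.FW

/-- CLU2: as CLU (`S_CLU`, same proof), with the lower bound relative to `|X (ctr T)|` (no CLV, and `Lg T ^ 3` is not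
absorbed). -/
def S_CLU2 [L : LFun] : Prop := ∀ r0 : ℝ, 0 < r0 → ∃ C : ℝ, 1 ≤ C ∧ ∀ w0 : ℂ, L.X (1 / 2 + w0) = 0 → 0 < w0.re →
  ∃ (H : ℂ → ℂ) (r : ℝ), Differentiable ℂ H ∧ 0 < r ∧ r ≤ r0 ∧ r ≤ w0.re / 2 ∧
    (∀ w, L.X (1 / 2 + w) = 0 → r < ‖w - w0‖ → H w = 0) ∧
    (∀ w, ‖w - w0‖ ≤ r → ‖H w - H w0‖ ≤ ‖H w0‖ / 16) ∧
    (∀ w, 2 ≤ ‖w - w0‖ → ‖H w‖ ≤ ‖L.X (1 / 2 + w)‖) ∧
    ‖L.X (ctr w0.im)‖ * Real.exp (-(C * (Lg w0.im ^ 3 + Lg w0.im * Real.log (1 / w0.re)))) ≤ ‖H w0‖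

/-- CLV2: `|X (9/2 + i T)| ≥ exp (-C (1 + |T|))`.  `X = gaf * L` (`ul.eq`), the Dirichlet series is bounded below
on `Re s = 9/2` uniformly (integrate `ul.bd`, i.e. `|L'/L| ≤ m B`, from a far right point, or `|log L| ≤ C`), and
for every factor `|Γ((s + a_j)/2)| ≥ exp (-C (1 + |Im|))`: for `z = x + i y`, `|y| ≥ 1`, `x` bounded,
`Γ(z) Γ(1 - z) = π / sin π z`, `|sin π z| ≤ exp (π |y|)`, `|Γ(1 - z)| ≤ |Γ(n + 1 - z)| ≤ Γ(n + 1 - x)`; compactness for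
`|y| ≤ 1`. -/
def S_CLV2 [L : LFun] : Prop := ∃ C : ℝ, 1 ≤ C ∧ ∀ T : ℝ, Real.exp (-(C * (1 + |T|))) ≤ ‖L.X (ctr T)‖

/-- FIN2 (the result, assembled by helper336) -/
def S_FIN2 [L : LFun] : Prop := ∀ η : ℝ, 0 < η → ∃ c A : ℝ, 0 < c ∧ 0 < A ∧ ∀ a : ℝ, A ≤ a →
  (∀ f : ℝ → ℂ, Hd a f → -(Real.exp (-(η * Real.exp (2 * a / L.m))) * N2 f) ≤ QQ f) →
  ∀ s : ℂ, L.X s = 0 → |s.im| ≤ c * Real.exp (2 * a / L.m) →
    |s.re - 1 / 2| ≤ Real.exp (-(c * (Real.exp (2 * a / L.m) / a)))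

end Pool.Agent.Y23.G.FW
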