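import Pool.Agent.Run7.h336.FW.FT
import Pool.Agent.Run7.h336.FW.Stm2

/-! # Assembly of the finite form of Weil's criterion, sharper form -/

set_option autoImplicit false
set_option linter.unusedSectionVars false
set_option maxHeartbeats 2000000

open Complex Filter Topology Set MeasureTheory Metric
open scoped ComplexConjugate Convolution

namespace Pool.Agent.Y23.G.FW

variable [L : LFun]

/-- **the finite form of Weil's criterion** -/
theorem t_FIN2 (hCLU : S_CLU2 (L := L)) (hCLV : S_CLV2 (L := L)) (hOFC : S_OFC (L := L)) (hBDD : S_BDD (L := L))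
    (hCUT : S_CUT (L := L)) : S_FIN2 (L := L) := by
  intro η hη
  obtain ⟨M1, N1, p, Ck, B, D, r0, hM1, hN1, hp, hCk, hB, hD, hr0, ht⟩ := test_cluster hBDD hCUT
  obtain ⟨C1, hC1, hclu⟩ := hCLU r0 hr0
  obtain ⟨C2, hC2, hclv⟩ := hCLV
  obtain ⟨Kz, hKz, hz⟩ := zsum_le (D := zd (L := L))
  have hm1 := m_one (L := L)
  have hm0 : (0 : ℝ) < L.m := by linarith
  have hcc := cc_pos (L := L)
  obtain ⟨θ, hθ, hθ0, hθ'⟩ : ∃ θ : ℝ, θ = cc * Real.exp (-(2 * 1 / L.m)) / 2 ∧ 0 < θ ∧ θ < cc * Real.exp (-(2 * 1 / L.m)) := by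
    have : 0 < cc * Real.exp (-(2 * 1 / (L.m : ℝ))) := by positivity
    exact ⟨_, rfl, by positivity, by linarith⟩
  obtain ⟨A1, hA1, hlim⟩ := tau_lim (L := L) (B := B) (C := D) (c := θ) (η := 1) hB hD hθ'
  obtain ⟨ε, hε0, hεθ, hεη⟩ : ∃ ε : ℝ, 0 < ε ∧ 4 * ε ≤ θ ∧ 4 * ε ≤ η := by
    refine ⟨min θ η / 4, by positivity, ?_, ?_⟩
    · have := min_le_left θ η; linarith
    · have := min_le_right θ η; linarith
  obtain ⟨c, hc0, hc1, hcC⟩ : ∃ c : ℝ, 0 < c ∧ c ≤ 1 ∧ 16 * c * (C1 + C2) ≤ ε := by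
    refine ⟨min 1 (ε / (16 * (C1 + C2))), lt_min one_pos (by positivity), min_le_left _ _, ?_⟩
    have h1 := min_le_right 1 (ε / (16 * (C1 + C2)))
    rw [le_div_iff₀ (by positivity)] at h1
    linarith
  set U : ℝ := 32 * M1 * Ck * Kz with hU
  have hU0 : 0 < U := by positivity
  set K0 : ℝ := max (100 / ε) (max (Ck / θ) ((U + 4 * N1) / (ε * p ^ 2) + 1)) with hK0
  obtain ⟨A3, hA3⟩ := eventually_atTop.1 ((CB.XA_lim hm0).eventually (eventually_ge_atTop K0))
  have hcube : Tendsto (fun a : ℝ => Real.exp (2 * a / L.m) / a ^ 3) atTop atTop := by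
    have h1 := (Real.tendsto_exp_div_pow_atTop 3).comp (tendsto_id.const_mul_atTop (show (0 : ℝ) < 2 / L.m by positivity))
    have h2 := h1.const_mul_atTop (show (0 : ℝ) < (2 / L.m) ^ 3 by positivity)
    refine h2.congr' ?_
    filter_upwards [eventually_gt_atTop 0] with a ha
    simp only [Function.comp_apply, id]
    have : 2 / (L.m : ℝ) * a = 2 * a / L.m := by ring
    rw [this]
    field_simp
  obtain ⟨A4, hA4⟩ := eventually_atTop.1 (hcube.eventually (eventually_ge_atTop (2 * (64 * C1 + C2) / ε)))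
  refine ⟨c, max (max A1 (max A3 A4)) 1, hc0, lt_max_of_lt_right one_pos, fun a ha hyp => ?_⟩
  have ha1 : 1 ≤ a := (le_max_right _ _).trans ha
  have ha0 : 0 < a := by linarith
  have haA1 : A1 ≤ a := (le_max_left _ _).trans ((le_max_left _ _).trans ha)
  have hK := hA3 a ((le_max_left _ _).trans ((le_max_right _ _).trans ((le_max_left _ _).trans ha)))
  have hK4 := hA4 a ((le_max_right _ _).trans ((le_max_right _ _).trans ((le_max_left _ _).trans ha)))
  have htau := hlim a haA1
  obtain ⟨X, hX⟩ : ∃ X : ℝ, X = Real.exp (2 * a / L.m) := ⟨_, rfl⟩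
  rw [← hX] at hK hK4 htau hyp ⊢
  have hX0 : 0 < X := by rw [hX]; exact Real.exp_pos _
  have hX1 : 1 ≤ X := by rw [hX]; exact Real.one_le_exp (by positivity)
  have hXa : X ≤ Real.exp (2 * a) := by
    rw [hX]; exact Real.exp_le_exp.2 (div_le_self (by positivity) hm1)
  have k3 : 100 / ε ≤ X / a := (le_max_left _ _).trans hK
  have k5 : Ck / θ ≤ X / a := (le_max_left _ _).trans ((le_max_right _ _).trans hK)
  have k4 : (U + 4 * N1) / (ε * p ^ 2) + 1 ≤ X / a := (le_max_right _ _).trans ((le_max_right _ _).trans hK)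
  have hXaX : X / a ≤ X := div_le_self hX0.le ha1
  have k1' : C2 + 64 * C1 * a ^ 3 ≤ ε / 2 * X := by
    rw [div_le_div_iff₀ hε0 (by positivity)] at hK4
    have h1 : (1 : ℝ) ≤ a ^ 3 := one_le_pow₀ ha1
    have h2 : C2 ≤ C2 * a ^ 3 := le_mul_of_one_le_right (by linarith) h1
    linarith
  have k3' : 100 ≤ ε * X := by
    have := k3.trans hXaX
    rw [div_le_iff₀ hε0] at this
    linarith
  have k5' : Ck ≤ θ * X := by
    have := k5.trans hXaX
    rw [div_le_iff₀ hθ0] at this
    linarith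
  have hinv : ∀ y : ℝ, 0 < y → Real.exp (-y) ≤ 1 / y := by
    intro y hy
    rw [Real.exp_neg, ← one_div]
    exact one_div_le_one_div_of_le hy (by linarith [Real.add_one_le_exp y])
  set E : ℝ := Real.exp (-(θ * X)) with hE
  have hE0 : 0 < E := Real.exp_pos _
  have hE1 : E ≤ 1 := Real.exp_le_one_iff.2 (by have := mul_pos hθ0 hX0; linarith)
  have hEC : E * Ck ≤ 1 := by
    have h1 := hinv (θ * X) (by positivity)
    calc E * Ck ≤ 1 / (θ * X) * Ck := mul_le_mul_of_nonneg_right h1 hCk.le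
      _ = Ck / (θ * X) := by ring
      _ ≤ 1 := by rw [div_le_one (by positivity)]; exact k5'
  have he1 : Real.exp (-(ε * X)) ≤ 1 / 100 := by
    refine (hinv (ε * X) (by positivity)).trans ?_
    exact one_div_le_one_div_of_le (by norm_num) k3'
  have hEe : E ≤ Real.exp (-(ε * X)) / 100 := by
    have h1 : E ≤ Real.exp (-(ε * X)) * Real.exp (-(ε * X)) := by
      rw [← Real.exp_add, hE]
      refine Real.exp_le_exp.2 ?_
      have := mul_le_mul_of_nonneg_right hεθ hX0.le
      have := mul_pos hε0 hX0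
      linarith
    have h2 := mul_le_mul_of_nonneg_left he1 (Real.exp_pos (-(ε * X))).le
    linarith
  have hcXa : 0 ≤ c * (X / a) := by positivity
  have hcXX : c * (X / a) ≤ X := by
    calc c * (X / a) ≤ 1 * (X / a) := mul_le_mul_of_nonneg_right hc1 (by positivity)
      _ = X / a := one_mul _
      _ ≤ X := hXaX
  -- zeros to the right
  have key : ∀ s : ℂ, L.X s = 0 → |s.im| ≤ c * X → s.re - 1 / 2 ≤ Real.exp (-(c * (X / a))) := by
    intro s hs hsT
    by_contra hcon
    rw [not_le] at hcon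
    set w0 : ℂ := s - 1 / 2 with hw0
    have hre : w0.re = s.re - 1 / 2 := by rw [hw0]; simp
    have him : w0.im = s.im := by rw [hw0]; simp
    rw [← hre] at hcon
    have hσ0 : 0 < w0.re := (Real.exp_pos _).trans hcon
    have hσ1 : w0.re ≤ 1 := by rw [hre]; exact (le_abs_self _).trans (X_strip hs)
    have hXw : L.X (1 / 2 + w0) = 0 := by rw [hw0, add_sub_cancel]; exact hs
    obtain ⟨H, r, hH, hr, hrr0, hrw, hHz, hHc, hHX, hHl⟩ := hclu w0 hXw hσ0
    set T : ℝ := w0.im with hT
    have hTb : |T| ≤ c * X := by rw [him]; exact hsT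
    have hcX : c * X ≤ X := mul_le_of_le_one_left hX0.le hc1
    have hLT : Lg T ≤ 4 * a := by
      unfold Lg
      rw [Real.log_le_iff_le_exp (by positivity)]
      have h1 : 3 + |T| ≤ 4 * Real.exp (2 * a) := by
        have := hTb.trans (hcX.trans hXa)
        have h2 : 1 ≤ Real.exp (2 * a) := Real.one_le_exp (by positivity)
        linarith
      have h2 : (4 : ℝ) ≤ Real.exp (2 * a) := by
        have h3 : Real.exp 2 ≤ Real.exp (2 * a) := Real.exp_le_exp.2 (by linarith)
        have h4 : (4 : ℝ) ≤ Real.exp 2 := by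
          have h5 : (2 : ℝ) ≤ Real.exp 1 := by linarith [Real.add_one_le_exp (1 : ℝ)]
          have h6 : Real.exp 2 = Real.exp 1 * Real.exp 1 := by rw [← Real.exp_add]; norm_num
          rw [h6]
          calc (4 : ℝ) = 2 * 2 := by norm_num
            _ ≤ _ := mul_le_mul h5 h5 (by norm_num) (Real.exp_pos _).le
        linarith
      calc 3 + |T| ≤ 4 * Real.exp (2 * a) := h1
        _ ≤ Real.exp (2 * a) * Real.exp (2 * a) := mul_le_mul_of_nonneg_right h2 (Real.exp_pos _).le
        _ = Real.exp (4 * a) := by rw [← Real.exp_add]; congr 1; ring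
    have hL1 := one_le_Lg T
    have hlog : Real.log (1 / w0.re) ≤ c * (X / a) := by
      rw [one_div, Real.log_inv]
      have h1 := Real.log_lt_log (Real.exp_pos _) hcon
      rw [Real.log_exp] at h1
      linarith
    have hlog0 : 0 ≤ Real.log (1 / w0.re) := Real.log_nonneg (by rw [one_div]; exact (one_le_inv₀ hσ0).2 hσ1)
    have hexp : C2 * (1 + |T|) + C1 * (Lg T ^ 3 + Lg T * Real.log (1 / w0.re)) ≤ ε * X := by
      have h1 : Lg T ^ 3 ≤ (4 * a) ^ 3 := pow_le_pow_left₀ (by linarith) hLT 3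
      have h2 : Lg T * Real.log (1 / w0.re) ≤ 4 * a * (c * (X / a)) := mul_le_mul hLT hlog hlog0 (by positivity)
      have h3 : 4 * a * (c * (X / a)) = 4 * c * X := by
        have h2' : X / a * a = X := div_mul_cancel₀ X ha0.ne'
        linear_combination (4 * c) * h2'
      have h4 := mul_le_mul_of_nonneg_right hcC hX0.le
      have h5 : C1 * (Lg T ^ 3 + Lg T * Real.log (1 / w0.re)) ≤ C1 * (64 * a ^ 3 + 4 * c * X) := by
        refine mul_le_mul_of_nonneg_left ?_ (by linarith)
        have : (4 * a) ^ 3 = 64 * a ^ 3 := by ring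
        linarith
      have h6 : C2 * (1 + |T|) ≤ C2 * (1 + c * X) := mul_le_mul_of_nonneg_left (by linarith) (by linarith)
      have h7 : 0 ≤ C2 * (c * X) := by positivity
      have h8 : 0 ≤ C1 * (c * X) := by positivity
      linarith
    have hHl' : Real.exp (-(ε * X)) ≤ ‖H w0‖ := by
      refine le_trans ?_ ((mul_le_mul_of_nonneg_right (hclv T) (Real.exp_pos _).le).trans hHl)
      rw [← Real.exp_add]
      refine Real.exp_le_exp.2 ?_
      linarith
    obtain ⟨g, hg, hgl, hgu, hgN, hgc, hgz⟩ := ht H w0 r hσ0.le hσ1 hH hr hrr0 hHz hHc hHX a E ha1 htau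
      (by linarith) hE1 hE0
    have hg0 : 0 < ‖TT g w0‖ := lt_of_lt_of_le (mul_pos hp ((Real.exp_pos _).trans_le hHl')) hgl
    obtain ⟨h, hh, hhN, hhQ⟩ := hOFC w0 r a M1 (E * Ck) g hXw ha0 hr hrw hM1 (by positivity) hEC hg (norm_pos_iff.1 hg0)
      hgu (fun w hw _ hwr => hgc w hw hwr) hgz
    have h1 := hyp h hh
    have hZ := hz T
    have h2 : Real.exp (-(η * X)) * N2 h ≤ Real.exp (-(4 * ε * X)) * (4 * N1) := by
      refine mul_le_mul (Real.exp_le_exp.2 ?_) (by linarith) (N2_nonneg h) (Real.exp_pos _).le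
      have := mul_le_mul_of_nonneg_right hεη hX0.le
      linarith
    have h3 : 8 * M1 * (E * Ck) * (∑' ρ : Zt, (mu ρ : ℝ) * (1 / (1 + ((ρ : ℂ).im - w0.im) ^ 2))) ≤
        U * a * Real.exp (-(4 * ε * X)) := by
      have h4 : E ≤ Real.exp (-(4 * ε * X)) := by
        rw [hE]
        refine Real.exp_le_exp.2 ?_
        have := mul_le_mul_of_nonneg_right hεθ hX0.le
        linarith
      calc _ ≤ 8 * M1 * (E * Ck) * (Kz * (4 * a)) := by
            refine mul_le_mul_of_nonneg_left (hZ.trans (mul_le_mul_of_nonneg_left hLT hKz.le)) (by positivity)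
        _ = U * a * E := by rw [hU]; ring
        _ ≤ _ := mul_le_mul_of_nonneg_left h4 (by positivity)
    have h5 : (p * Real.exp (-(ε * X))) ^ 2 ≤ ‖TT g w0‖ ^ 2 := by
      refine pow_le_pow_left₀ (by positivity) ?_ 2
      exact (mul_le_mul_of_nonneg_left hHl' hp.le).trans hgl
    have h6 : (p * Real.exp (-(ε * X))) ^ 2 = p ^ 2 * Real.exp (-(2 * ε * X)) := by
      rw [mul_pow, ← Real.exp_nat_mul]
      congr 2
      push_cast
      ring
    have h7 : Real.exp (-(4 * ε * X)) = Real.exp (-(2 * ε * X)) * Real.exp (-(2 * ε * X)) := by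
      rw [← Real.exp_add]; congr 1; ring
    have h8 : p ^ 2 * Real.exp (-(2 * ε * X)) / 2 ≤
        (U * a + 4 * N1) * (Real.exp (-(2 * ε * X)) * Real.exp (-(2 * ε * X))) := by
      rw [← h7]
      rw [h6] at h5
      linarith
    have h9 : p ^ 2 / 2 ≤ (U * a + 4 * N1) * Real.exp (-(2 * ε * X)) := by
      have h10 := Real.exp_pos (-(2 * ε * X))
      by_contra hc9
      rw [not_le] at hc9
      have := mul_lt_mul_of_pos_right hc9 h10
      linarith
    have h10 : (U * a + 4 * N1) * Real.exp (-(2 * ε * X)) ≤ (U + 4 * N1) * a / (2 * ε * X) := by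
      have h11 := hinv (2 * ε * X) (by positivity)
      have h12 : U * a + 4 * N1 ≤ (U + 4 * N1) * a := by
        have h15 : 4 * N1 * 1 ≤ 4 * N1 * a := mul_le_mul_of_nonneg_left ha1 (by linarith only [hN1])
        have h16 : (U + 4 * N1) * a = U * a + 4 * N1 * a := by ring
        rw [h16]
        linarith only [h15]
      calc _ ≤ (U + 4 * N1) * a * (1 / (2 * ε * X)) := mul_le_mul h12 h11 (Real.exp_pos _).le (by positivity)
        _ = _ := by ring
    have h13 : (U + 4 * N1) * a / (2 * ε * X) < p ^ 2 / 2 := by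
      have h14 : (U + 4 * N1) / (ε * p ^ 2) < X / a := by linarith
      rw [div_lt_div_iff₀ (by positivity) ha0] at h14
      rw [div_lt_div_iff₀ (by positivity) (by norm_num)]
      linarith
    linarith
  intro s hs hsT
  rw [abs_le]
  refine ⟨?_, key s hs hsT⟩
  have h1 := key (1 - conj s) (X_zero hs) (by
    have : (1 - conj s).im = s.im := by simp
    rw [this]; exact hsT)
  have h2 : (1 - conj s).re = 1 - s.re := by simp
  rw [h2] at h1
  linarith

end Pool.Agent.Y23.G.FW
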