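import Pool.Agent.Run7.h336.FW.CUT
import Pool.Agent.Run7.h336.CB.B20

/-! # The test functions of a cluster of zeros -/

set_option autoImplicit false
set_option linter.unusedSectionVars false
set_option maxHeartbeats 2000000

open Complex Filter Topology Set MeasureTheory Metric
open scoped ComplexConjugate Convolution

namespace Pool.Agent.Y23.G.FW

/-- the kernel, uniformly -/
lemma kernU : ∃ Ck p r0 : ℝ, 0 < Ck ∧ 0 < p ∧ 0 < r0 ∧ ∀ w0 : ℂ, |w0.re| ≤ 1 → ∃ κ : ℝ → ℂ, Fa 1 κ ∧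
    (∀ x, ‖κ x‖ ≤ 3 * Real.exp 1) ∧ ‖TT κ w0‖ = p ∧
    (∀ w : ℂ, |w.re| ≤ 1 → ‖TT κ w‖ ≤ Ck / (1 + (w.im - w0.im) ^ 2)) ∧
    (∀ w : ℂ, ‖w - w0‖ ≤ r0 → ‖TT κ w - TT κ w0‖ ≤ p / 32) := by
  obtain ⟨Ck, hCk, hkb⟩ := kap_boundR (a := 1 / 2) (by norm_num) (r := 2)
  have hk0 := TT_kap_zero (η := 1 / 2) (by norm_num)
  have hp : 0 < ‖TT (kap (1 / 2)) 0‖ := norm_pos_iff.2 hk0
  have hKF : Fa (2 * (1 / 2)) (kap (1 / 2)) := Fa_kap (a := 1 / 2) (by norm_num)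
  have hcont : Continuous (TT (kap (1 / 2))) := (differentiable_TT hKF).continuous
  obtain ⟨r1, hr1, hr⟩ := Metric.continuousAt_iff.1 (hcont.continuousAt (x := 0)) (‖TT (kap (1 / 2)) 0‖ / 32) (by positivity)
  refine ⟨Ck, ‖TT (kap (1 / 2)) 0‖, r1 / 2, hCk, hp, by positivity, fun w0 hw0 => ?_⟩
  have hκF : Fa 1 (fun x => kap (1 / 2) x * cexp (-w0 * x)) := by
    have := (Fa_kap (a := 1 / 2) (by norm_num)).mul_bdd (g := fun x : ℝ => cexp (-w0 * x)) (by fun_prop)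
    rwa [show 2 * (1 / 2 : ℝ) = 1 by ring] at this
  have hκT : ∀ w, TT (fun x => kap (1 / 2) x * cexp (-w0 * x)) w = TT (kap (1 / 2)) (-w0 + w) := fun w => TT_mul_exp _ _ _
  refine ⟨fun x => kap (1 / 2) x * cexp (-w0 * x), hκF, fun x => ?_, by rw [hκT, neg_add_cancel], fun w hw => ?_,
    fun w hw => ?_⟩
  · by_cases hx : 1 < |x|
    · rw [hκF.2 x hx, norm_zero]
      positivity
    · rw [not_lt] at hx
      rw [norm_mul, Complex.norm_exp]
      have h1 : (-w0 * (x : ℂ)).re ≤ 1 := by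
        rw [Complex.re_mul_ofReal, Complex.neg_re]
        calc -w0.re * x ≤ |-w0.re * x| := le_abs_self _
          _ = |w0.re| * |x| := by rw [abs_mul, abs_neg]
          _ ≤ 1 * 1 := mul_le_mul hw0 hx (abs_nonneg _) zero_le_one
          _ = 1 := one_mul 1
      exact mul_le_mul (kap_bdd (by norm_num) x) (Real.exp_le_exp.2 h1) (Real.exp_pos _).le (by norm_num)
  · rw [hκT]
    have h3 := hkb (-w0 + w) (by
      rw [Complex.add_re, Complex.neg_re]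
      calc |-w0.re + w.re| ≤ |-w0.re| + |w.re| := abs_add_le _ _
        _ ≤ 1 + 1 := by rw [abs_neg]; linarith
        _ = 2 := by norm_num)
    have h4 : (-w0 + w).im = w.im - w0.im := by simp; ring
    rwa [h4] at h3
  · rw [hκT, hκT, neg_add_cancel]
    have h1 : dist (-w0 + w) 0 < r1 := by
      rw [dist_zero_right]
      have : -w0 + w = w - w0 := by ring
      rw [this]
      linarith
    have h2 := hr h1
    rw [dist_eq_norm] at h2
    exact h2.le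

variable [L : LFun]

/-- the function `Ex` on `[0, 1]` -/
lemma Ex_up {A σ : ℝ} (hA : 0 ≤ A) (hσ : 0 ≤ σ) (hσ1 : σ ≤ 1) : Ex (L := L) A σ ≤ A + A * Real.log 3 + L.m / 2 * |kp| := by
  unfold Ex
  have hm := m_one (L := L)
  have h1 : Real.log (2 + σ) ≤ Real.log 3 := Real.log_le_log (by linarith) (by linarith)
  have h2 : σ * (Real.log σ - kp) ≤ |kp (L := L)| := by
    have h3 : σ * Real.log σ ≤ 0 := mul_nonpos_of_nonneg_of_nonpos hσ (Real.log_nonpos hσ hσ1)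
    have h4 : σ * (-kp (L := L)) ≤ |kp (L := L)| := by
      calc σ * (-kp (L := L)) ≤ σ * |kp (L := L)| := mul_le_mul_of_nonneg_left (neg_le_abs _) hσ
        _ ≤ 1 * |kp (L := L)| := mul_le_mul_of_nonneg_right hσ1 (abs_nonneg _)
        _ = _ := one_mul _
    have e : σ * (Real.log σ - kp (L := L)) = σ * Real.log σ + σ * (-kp (L := L)) := by ring
    rw [e]
    linarith
  have h3 : A * Real.log (2 + σ) ≤ A * Real.log 3 := mul_le_mul_of_nonneg_left h1 hA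
  have h4 : (L.m : ℝ) / 2 * (σ * (Real.log σ - kp)) ≤ L.m / 2 * |kp| := mul_le_mul_of_nonneg_left h2 (by linarith)
  linarith

/-- the norm of a function whose transform is small away from one point -/
lemma N2_bd {a : ℝ} {g : ℝ → ℂ} (hg : Fa a g) {M T : ℝ} (h : ∀ v : ℝ, ‖TT g (v * I)‖ ≤ M / (1 + (v - T) ^ 2)) :
    N2 g ≤ M ^ 2 / 2 := by
  have h1 := plancherel hg
  have hi : Integrable (fun v : ℝ => M ^ 2 * (1 + (v - T) ^ 2)⁻¹) :=
    (integrable_inv_one_add_sq.comp_sub_right T).const_mul _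
  have h2 : ∫ v : ℝ, ‖TT g (v * I)‖ ^ 2 ≤ ∫ v : ℝ, M ^ 2 * (1 + (v - T) ^ 2)⁻¹ := by
    refine integral_mono (int_TT_sq hg) hi fun v => ?_
    have h3 := pow_le_pow_left₀ (norm_nonneg _) (h v) 2
    refine h3.trans ?_
    rw [div_pow, div_eq_mul_inv]
    refine mul_le_mul_of_nonneg_left ?_ (sq_nonneg _)
    have h4 : (1 : ℝ) ≤ 1 + (v - T) ^ 2 := by have := sq_nonneg (v - T); linarith
    refine inv_anti₀ (by linarith) ?_
    nlinarith
  rw [integral_const_mul, integral_sub_right_eq_self (fun v : ℝ => (1 + v ^ 2)⁻¹) T, integral_univ_inv_one_add_sq, h1] at h2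
  have hpi := Real.pi_pos
  nlinarith

/-- the test function of a cluster -/
lemma test_cluster (hBDD : S_BDD (L := L)) (hCUT : S_CUT (L := L)) : ∃ M1 N1 p Ck B D r0 : ℝ, 1 ≤ M1 ∧ 0 < N1 ∧ 0 < p ∧
    0 < Ck ∧ 0 ≤ B ∧ 0 < D ∧ 0 < r0 ∧ ∀ (H : ℂ → ℂ) (w0 : ℂ) (r : ℝ), 0 ≤ w0.re → w0.re ≤ 1 → Differentiable ℂ H →
    0 < r → r ≤ r0 → (∀ w, L.X (1 / 2 + w) = 0 → r < ‖w - w0‖ → H w = 0) →
    (∀ w, ‖w - w0‖ ≤ r → ‖H w - H w0‖ ≤ ‖H w0‖ / 16) →
    (∀ w, 2 ≤ ‖w - w0‖ → ‖H w‖ ≤ ‖L.X (1 / 2 + w)‖) → ∀ a E : ℝ, 1 ≤ a →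
    D * Real.exp (B * (1 + a) - cc * Real.exp (2 * (a - 1) / L.m)) ≤ E → E ≤ ‖H w0‖ / 100 → E ≤ 1 → 0 < E →
    ∃ g : ℝ → ℂ, Fa a g ∧ p * ‖H w0‖ ≤ ‖TT g w0‖ ∧ ‖TT g w0‖ ≤ M1 ∧ N2 g ≤ N1 ∧
      (∀ w : ℂ, |w.re| ≤ 1 → ‖w - w0‖ ≤ r → ‖TT g w - TT g w0‖ ≤ ‖TT g w0‖ / 8) ∧
      (∀ w : ℂ, |w.re| ≤ 1 → L.X (1 / 2 + w) = 0 → r < ‖w - w0‖ → ‖TT g w‖ ≤ E * Ck / (1 + (w.im - w0.im) ^ 2)) := by
  obtain ⟨A0, hA0, hXb⟩ := X_all (L := L)
  obtain ⟨M, hM, hHM⟩ := hBDD A0 hA0 hXb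
  obtain ⟨B, C, hB, hC, hcut⟩ := hCUT A0 hA0
  obtain ⟨Ck, p, r0, hCk, hp, hr0, hker⟩ := kernU
  set Q : ℝ := M * Real.exp (A0 + A0 * Real.log 3 + L.m / 2 * |kp (L := L)|) + 1 with hQ
  have hQ1 : 1 ≤ Q := by rw [hQ]; have : 0 < M * Real.exp (A0 + A0 * Real.log 3 + L.m / 2 * |kp (L := L)|) := by positivity
                         linarith
  refine ⟨max 1 (Q * p), (Q * Ck) ^ 2 / 2, p / 2, Ck, B, M * C, r0, le_max_left _ _, by positivity, by positivity, hCk,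
    hB, by positivity, hr0, fun H w0 r hw0 hw1 hH hr hrr0 hHz hHc hHX a E ha hE hE1 hE2 hE0 => ?_⟩
  have hre0 : |w0.re| ≤ 1 := by rw [abs_of_nonneg hw0]; exact hw1
  have hb := hHM w0 H hre0 hH hHX
  have hHQ : ∀ w : ℂ, |w.re| ≤ 1 → ‖H w‖ ≤ Q - 1 := by
    intro w hw
    refine (hb w).trans ?_
    rw [hQ, add_sub_cancel_right]
    refine (div_le_self (by positivity) (by have := sq_nonneg w.im; linarith)).trans ?_
    exact mul_le_mul_of_nonneg_left (Real.exp_le_exp.2 (Ex_up hA0 (abs_nonneg _) hw)) hM.le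
  obtain ⟨f, hf, hfb⟩ := hcut M H hM hH hb (a - 1) (by linarith)
  have hfE : ∀ w : ℂ, |w.re| ≤ 1 → ‖TT f w - H w‖ ≤ E := by
    intro w hw
    refine (hfb w hw).trans (le_trans ?_ hE)
    refine mul_le_mul_of_nonneg_left (Real.exp_le_exp.2 ?_) (by positivity)
    have : B * (1 + (a - 1)) ≤ B * (1 + a) := mul_le_mul_of_nonneg_left (by linarith) hB
    linarith
  obtain ⟨κ, hκF, hκb, hκ0, hκB, hκc⟩ := hker w0 hre0
  obtain ⟨g, hg, hgT⟩ := conv_TT hf hκF hκb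
  rw [sub_add_cancel] at hg
  set h0 : ℝ := ‖H w0‖ with hh0
  have hf0 := hfE w0 hre0
  have hfl : h0 - E ≤ ‖TT f w0‖ := by
    have e : H w0 = TT f w0 - (TT f w0 - H w0) := by ring
    have : h0 ≤ ‖TT f w0‖ + ‖TT f w0 - H w0‖ := by
      rw [hh0]
      calc ‖H w0‖ = ‖TT f w0 - (TT f w0 - H w0)‖ := by rw [← e]
        _ ≤ _ := norm_sub_le _ _
    linarith
  have hfu : ∀ w : ℂ, |w.re| ≤ 1 → ‖TT f w‖ ≤ Q := by
    intro w hw
    have e : TT f w = H w + (TT f w - H w) := by ring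
    calc ‖TT f w‖ = ‖H w + (TT f w - H w)‖ := by rw [← e]
      _ ≤ ‖H w‖ + ‖TT f w - H w‖ := norm_add_le _ _
      _ ≤ (Q - 1) + E := add_le_add (hHQ w hw) (hfE w hw)
      _ ≤ Q := by linarith
  have hg0 : ‖TT g w0‖ = ‖TT f w0‖ * p := by rw [hgT, norm_mul, hκ0]
  refine ⟨g, hg, ?_, ?_, ?_, fun w hw hwr => ?_, fun w hw hX hwr => ?_⟩
  · rw [hg0]
    have : h0 / 2 ≤ ‖TT f w0‖ := by linarith
    calc p / 2 * h0 = h0 / 2 * p := by ring
      _ ≤ _ := mul_le_mul_of_nonneg_right this hp.le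
  · rw [hg0]
    exact (mul_le_mul_of_nonneg_right (hfu w0 hre0) hp.le).trans (le_max_right _ _)
  · refine N2_bd hg (M := Q * Ck) (T := w0.im) fun v => ?_
    have hre : ((v : ℂ) * I).re = 0 := by simp
    have hre' : |((v : ℂ) * I).re| ≤ 1 := by rw [hre, abs_zero]; exact zero_le_one
    have him : ((v : ℂ) * I).im = v := by simp
    rw [hgT, norm_mul]
    have h1 := mul_le_mul (hfu _ hre') (hκB _ hre') (norm_nonneg _) (by linarith)
    rw [him] at h1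
    calc _ ≤ _ := h1
      _ = _ := by ring
  · have k1 : ‖TT f w - TT f w0‖ ≤ h0 / 16 + 2 * E := by
      have e : TT f w - TT f w0 = (TT f w - H w) + (H w - H w0) + (H w0 - TT f w0) := by ring
      rw [e]
      refine (norm_add_le _ _).trans ?_
      have h3 := hfE w hw
      have h4 := hHc w hwr
      have h5 : ‖H w0 - TT f w0‖ ≤ E := by rw [norm_sub_rev]; exact hf0
      have h6 := norm_add_le (TT f w - H w) (H w - H w0)
      linarith
    have k2 := hκc w (hwr.trans hrr0)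
    have k3 : ‖TT κ w‖ ≤ p * (33 / 32) := by
      have e : TT κ w = TT κ w0 + (TT κ w - TT κ w0) := by ring
      calc ‖TT κ w‖ = ‖TT κ w0 + (TT κ w - TT κ w0)‖ := by rw [← e]
        _ ≤ ‖TT κ w0‖ + ‖TT κ w - TT κ w0‖ := norm_add_le _ _
        _ ≤ p + p / 32 := by rw [hκ0]; linarith
        _ = _ := by ring
    have e : TT g w - TT g w0 = (TT f w - TT f w0) * TT κ w + TT f w0 * (TT κ w - TT κ w0) := by
      rw [hgT, hgT]; ring
    rw [e, hg0]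
    refine (norm_add_le _ _).trans ?_
    rw [norm_mul, norm_mul]
    have h1 : ‖TT f w - TT f w0‖ * ‖TT κ w‖ ≤ (h0 / 16 + 2 * E) * (p * (33 / 32)) :=
      mul_le_mul k1 k3 (norm_nonneg _) (by positivity)
    have h2 : ‖TT f w0‖ * ‖TT κ w - TT κ w0‖ ≤ ‖TT f w0‖ * (p / 32) := mul_le_mul_of_nonneg_left k2 (norm_nonneg _)
    have h3 : (h0 / 16 + 2 * E) * (33 / 32) ≤ ‖TT f w0‖ * (3 / 32) := by linarith
    have h4 := mul_le_mul_of_nonneg_right h3 hp.le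
    linarith
  · rw [hgT, norm_mul]
    have h1 : ‖TT f w‖ ≤ E := by
      have := hfE w hw
      rwa [hHz w hX hwr, sub_zero] at this
    have h2 := mul_le_mul h1 (hκB w hw) (norm_nonneg _) hE0.le
    calc _ ≤ _ := h2
      _ = _ := by ring

end Pool.Agent.Y23.G.FW
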