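import Pool.Agent.Run7.h336.CB.B16

/-! # The finite form of Weil's criterion: the pieces -/

set_option autoImplicit false

open Complex Filter Topology Set MeasureTheory Metric
open scoped ComplexConjugate

namespace Pool.Agent.Y23.G.FW


/-- CLU (cluster of zeros).  For every zero `w0` to the right of the line there is an entire `H = X / ∏ (w - ρ)`,
the product over a cluster of zeros within `r` of `w0` (with multiplicity), which vanishes at all other zeros, is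
almost constant on the cluster, and is not too small at `w0`.

Proof.  `T = Im w0`, `c = ctr T`, `H370.Loc.extract` (file H370R2/Local) for `f = Xn T`, `r = 5.2`, `R = 6`,
`M = exp (C Lg T)` (`Xn_data`): `Xn T z = Pf s z * g z`, `g ≠ 0` on `closedBall c 5.2`, `n = card s ≤ C1 Lg T`.
`g` is entire (it is `f / Pf s` outside `closedBall c 6`).  On the sphere of radius 6 (`Pf_norm_ge`, `|z - ρ| ≥ 0.8`) and the
maximum principle `|g| ≤ exp (C2 Lg T)` on the ball, `g c = 1 / Pf s c`, `|g c| ≥ 5.2^(-n)`; so `logDeriv_zero_free`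
(`r2 = 5.05`, `r1 = 5.1`, `r = 5.2`) gives `|logDeriv g| ≤ C3 Lg T` on `closedBall c 5.05`, and by integration along the
segment from `c` (lemma `seg` of Y23/G/An1, `X_seg` shows how) `|g| ≥ exp (-C4 Lg T)` there.  `s0 = 1/2 + w0` has
`|s0 - c| ≤ 5`.  Let `K = 200 * (n + 1)`, `q0 = min (min r0 (w0.re/2)) (1 / (200 C3 Lg T))`, also `≤ 1/100`,
`r_j = q0 / K^j`.  The number `N j` of members of `s` within `r_j` of `s0` is nonincreasing, `N 0 ≤ n`, so `pigeon`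
(Y23/G/Fw3) gives `j ≤ n` with `N (j+1) = N j`; put `r = r_(j+1)`: no member of `s` has `r < |ρ - s0| ≤ K r`.
`s = P + O` (`P` the members within `r`, `O` the others).  `H w = X (ctr T) * Pf O (1/2+w) * g (1/2+w)`, so
`X (1/2+w) = Pf P (1/2+w) * H w`.  A zero outside the cluster is no root of `Pf P`, so `H` vanishes there.  For
`|w - w0| ≥ 2` all `|1/2 + w - ρ| ≥ 1`, `ρ ∈ P`, so `|H w| ≤ |X (1/2+w)|`.  On `|w - w0| ≤ r`: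
`|logDeriv H| ≤ n / ((K - 1) r) + C3 Lg T`, times `r` at most `1/100`; so `|H w - H w0| ≤ |H w0| / 16`.
Lower bound: `|Pf O s0| ≥ (K r)^n` (`K r ≤ 1`, card `O ≤ n`), `K r = r_j ≥ q0 / K^n`, `q0 ≥ c w0.re / Lg T`, `n ≤ C1 Lg T`,
`|X (ctr T)| ≥ exp (-C5 (1 + |T|) Lg T)` (from `XL_bd` on the line `Re = 9/2`), and
`Lg T ^ 3 ≤ C (1 + |T|) Lg T`. -/
def S_CLU [L : LFun] : Prop := ∀ r0 : ℝ, 0 < r0 → ∃ C : ℝ, 1 ≤ C ∧ ∀ w0 : ℂ, L.X (1 / 2 + w0) = 0 → 0 < w0.re →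
  ∃ (H : ℂ → ℂ) (r : ℝ), Differentiable ℂ H ∧ 0 < r ∧ r ≤ r0 ∧ r ≤ w0.re / 2 ∧
    (∀ w, L.X (1 / 2 + w) = 0 → r < ‖w - w0‖ → H w = 0) ∧
    (∀ w, ‖w - w0‖ ≤ r → ‖H w - H w0‖ ≤ ‖H w0‖ / 16) ∧
    (∀ w, 2 ≤ ‖w - w0‖ → ‖H w‖ ≤ ‖L.X (1 / 2 + w)‖) ∧
    Real.exp (-(C * (Lg w0.im * (1 + |w0.im| + Real.log (1 / w0.re))))) ≤ ‖H w0‖

/-- CLV: the lower bound on the line `Re s = 9/2` used in CLU (`XL_bd`, integrate `logDeriv X` along the vertical line). -/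
def S_CLV [L : LFun] : Prop := ∃ C : ℝ, 1 ≤ C ∧ ∀ T : ℝ,
  Real.exp (-(C * ((1 + |T|) * Lg T))) ≤ ‖L.X (ctr T)‖

/-- OFC (a cluster of zeros off the line makes the form negative): word by word `off_form` of
Run7/h336/CB/B21.lean with `x = 0`: `h = g + θ * sh' g`, `P0 = TT g w0`, `θ = -(P0^2 / |P0|^2)`, and for a zero `z` within
`r` of `w0`: `P = TT g z = P0 (1 + e)`, `|e| ≤ 1/8`, `Re (conj θ P^2) = -|P0|^2 Re (1+e)^2 ≤ -|P0|^2 / 2`, while `-conj z` is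
not within `r` of `w0` (its real part is negative), so `|R| ≤ δ d`. -/
def S_OFC [L : LFun] : Prop := ∀ (w0 : ℂ) (r a M δ : ℝ) (g : ℝ → ℂ), L.X (1 / 2 + w0) = 0 → 0 < a → 0 < r →
  r ≤ w0.re / 2 → 1 ≤ M → 0 < δ → δ ≤ 1 → Fa a g → TT g w0 ≠ 0 → ‖TT g w0‖ ≤ M →
  (∀ w : ℂ, |w.re| ≤ 1 → L.X (1 / 2 + w) = 0 → ‖w - w0‖ ≤ r → ‖TT g w - TT g w0‖ ≤ ‖TT g w0‖ / 8) →
  (∀ w : ℂ, |w.re| ≤ 1 → L.X (1 / 2 + w) = 0 → r < ‖w - w0‖ → ‖TT g w‖ ≤ δ / (1 + (w.im - w0.im) ^ 2)) →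
  ∃ h : ℝ → ℂ, Hd a h ∧ N2 h ≤ 4 * N2 g ∧
    QQ h ≤ 8 * M * δ * (∑' ρ : Zt, (mu ρ : ℝ) * (1 / (1 + ((ρ : ℂ).im - w0.im) ^ 2))) - ‖TT g w0‖ ^ 2 / 2

/-- BDD (the uniform bound, maximum principle).  `A` as in `X_all`.  For `|w - w0| < 2` the maximum of `|H|` on
`closedBall w0 2` is attained on the sphere, where `|H w'| ≤ |X (1/2 + w')| ≤ exp (Ex A |w'.re|) / (1 + w'.im^2)` and
`|w'.re| ≤ 3`; compare with `exp (Ex A |w.re|) / (1 + w.im^2)` (`Ex_low`). -/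
def S_BDD [L : LFun] : Prop := ∀ A : ℝ, 0 ≤ A →
  (∀ w : ℂ, ‖L.X (1 / 2 + w)‖ ≤ Real.exp (Ex A |w.re|) / (1 + w.im ^ 2)) → ∃ M : ℝ, 0 < M ∧
  ∀ (w0 : ℂ) (H : ℂ → ℂ), |w0.re| ≤ 1 → Differentiable ℂ H → (∀ w, 2 ≤ ‖w - w0‖ → ‖H w‖ ≤ ‖L.X (1 / 2 + w)‖) →
    ∀ w, ‖H w‖ ≤ M * Real.exp (Ex A |w.re|) / (1 + w.im ^ 2)

/-- CUT (uniform): `cut` of Y23/G/Ts4.lean with its constants, and the `L²` norm. -/
def S_CUT [L : LFun] : Prop := ∀ A : ℝ, 0 ≤ A → ∃ B C : ℝ, 0 ≤ B ∧ 0 < C ∧ ∀ (K : ℝ) (H : ℂ → ℂ), 0 < K →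
  Differentiable ℂ H → (∀ w, ‖H w‖ ≤ K * Real.exp (Ex A |w.re|) / (1 + w.im ^ 2)) → ∀ b : ℝ, 0 ≤ b →
  ∃ f : ℝ → ℂ, Fa b f ∧ (∀ w : ℂ, |w.re| ≤ 1 →
      ‖TT f w - H w‖ ≤ K * C * Real.exp (B * (1 + b) - cc * Real.exp (2 * b / L.m)))

/-- FIN (the result, assembled by helper336) -/
def S_FIN [L : LFun] : Prop := ∀ η : ℝ, 0 < η → ∃ c A : ℝ, 0 < c ∧ 0 < A ∧ ∀ a : ℝ, A ≤ a →
  (∀ f : ℝ → ℂ, Hd a f → -(Real.exp (-(η * Real.exp (2 * a / L.m))) * N2 f) ≤ QQ f) →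
  ∀ s : ℂ, L.X s = 0 → |s.im| ≤ c * (Real.exp (2 * a / L.m) / a) →
    |s.re - 1 / 2| ≤ Real.exp (-(c * (Real.exp (2 * a / L.m) / a)))

end Pool.Agent.Y23.G.FW
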